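import Pool.Agent.N623.CS.Stm

/-!
# Project CS (helper623): one stage of the fusion
-/

set_option autoImplicit false

namespace Pool.Agent.N665.CS

open Pool.Agent.N623.CS

/-- Rigid surjections do not increase. -/
theorem rs_le (w : RS) : ∀ m, w m ≤ m := by
  intro m
  induction m using Nat.strong_induction_on with
  | _ m ih =>
    by_contra h
    push Not at h
    obtain ⟨i, hi, hv⟩ := w.2.1 m m h
    have h1 : w i = m := hv
    have h2 := ih i hi
    omega

theorem sw_at {q p : ℕ} {w : RS} (hw : w ∈ Sw q p) : w q = p := hw.2 0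

theorem sw_fin (q : ℕ) : {w : RS | ∃ p, w ∈ Sw q p}.Finite := by
  apply Set.Finite.of_finite_image (f := fun (w : RS) (j : Fin (q + 1)) => w j)
  · apply Set.Finite.subset (Set.finite_Iic (fun _ : Fin (q + 1) => q))
    rintro _ ⟨w, -, rfl⟩ j
    exact (rs_le w j).trans (Nat.lt_succ_iff.1 j.2)
  · rintro w ⟨p, hw⟩ w' ⟨p', hw'⟩ h
    have h1 : ∀ j, j ≤ q → w j = w' j := fun j hj => congrFun h ⟨j, Nat.lt_succ_of_le hj⟩
    apply RS.ext
    intro n
    rcases Nat.lt_or_ge n q with hn | hn
    · exact h1 n hn.le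
    · obtain ⟨i, rfl⟩ := Nat.exists_eq_add_of_le hn
      have h2 := h1 q le_rfl
      rw [sw_at hw, sw_at hw'] at h2
      rw [hw.2, hw'.2, h2]

theorem t_stage : S_FAC → S_AMALG → S_STAGE := by
  classical
  intro hfac ham P dens hered q A
  have key : ∀ T : Finset RS, (∀ w ∈ T, ∃ p, w ∈ Sw q p) →
      ∃ h ∈ K q, ∀ w ∈ T, ∀ p, w ∈ Sw q p → P q p (w * h * A) := by
    intro T
    induction T using Finset.induction_on with
    | empty => exact fun _ => ⟨1, one_mem_K q, fun w hw => absurd hw (Finset.notMem_empty w)⟩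
    | insert w T _ ih =>
      intro hT
      obtain ⟨h, hh, hP⟩ := ih fun w hw => hT w (Finset.mem_insert_of_mem hw)
      obtain ⟨p, hw⟩ := hT w (Finset.mem_insert_self w T)
      obtain ⟨h', hh', hPh'⟩ := dens q p (w * h * A)
      obtain ⟨h2, hh2, heq⟩ := ham q p w hw h' hh'
      refine ⟨h2 * h, K_mul hh2 hh, ?_⟩
      intro w1 hw1 p1 hp1
      rcases Finset.mem_insert.1 hw1 with rfl | hmem
      · have hpp : p1 = p := by rw [← sw_at hp1, ← sw_at hw]
        subst hpp
        have e : w1 * (h2 * h) * A = h' * (w1 * h * A) := by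
          rw [← mul_assoc w1 h2 h, heq]
          simp only [mul_assoc]
        rw [e]
        exact hPh'
      · obtain ⟨h1', hh1', heq1⟩ := hfac q p1 w1 hp1 (w1 * h2) (fun j hj => by
          rw [RS.mul_apply, hh2 j hj])
        have e : w1 * (h2 * h) * A = h1' * (w1 * h * A) := by
          rw [← mul_assoc w1 h2 h, heq1]
          simp only [mul_assoc]
        rw [e]
        exact hered q p1 _ h1' hh1' (hP w1 hmem p1 hp1)
  obtain ⟨h, hh, hP⟩ := key (sw_fin q).toFinset (fun w hw => by simpa using hw)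
  exact ⟨h, hh, fun p w hw => hP w (by simpa using ⟨p, hw⟩) p hw⟩

end Pool.Agent.N665.CS
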